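import Pool.Agent.W717.UR.Stm

set_option autoImplicit false

namespace W347.UR

open Pool.Agent.W717.UR

theorem trans : S_TRANS := by
  intro Y y hy
  refine ⟨?_, ?_, ?_, ?_⟩
  · intro hY n
    obtain ⟨w, hw⟩ := hy n.natAbs
    have h1 := hw n (by rw [Int.natCast_natAbs])
    rw [h1]
    exact hY _
  · intro hY R
    obtain ⟨g, hg⟩ := hY R
    refine ⟨g, fun n n' => ?_⟩
    obtain ⟨w, hw⟩ := hy (n.natAbs + n'.natAbs + g + R)
    obtain ⟨s, hs, h1⟩ := hg (w + n) (w + n')
    refine ⟨s, hs, fun i hi => ?_⟩
    have h2 := h1 i hi
    have hi' := abs_le.mp hi
    have e1 : y (n' + s + i) = Y (w + (n' + s + i)) := by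
      apply hw
      rw [abs_le]
      omega
    have e2 : y (n + i) = Y (w + (n + i)) := by
      apply hw
      rw [abs_le]
      omega
    rw [e1, e2]
    convert h2 using 2 <;> ring
  · intro hY d hd
    obtain ⟨R, hR⟩ := hY d hd
    refine ⟨R, fun n hn => ?_⟩
    obtain ⟨w, hw⟩ := hy (n.natAbs + d + R)
    apply hR (w + n)
    intro j hj
    have hj' := abs_le.mp hj
    have h2 := hn j hj
    have e1 : y (n + j) = Y (w + (n + j)) := by
      apply hw
      rw [abs_le]
      omega
    have e2 : y (n + d + j) = Y (w + (n + d + j)) := by
      apply hw
      rw [abs_le]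
      omega
    rw [e1, e2] at h2
    convert h2 using 2 <;> ring
  · intro h b hbp hsupp K n
    obtain ⟨w, hw⟩ := hy (n.natAbs + h K + 1)
    obtain ⟨u, v, s1, s2, h1, h2, h3, h4, h5, h6, h7⟩ := hbp K (w + n)
    refine ⟨u - (w + n), v - u - h K, s1, s2, ?_, ?_, ?_, h4, h5, ?_⟩
    · rcases h3 with h3 | h3
      · omega
      · omega
    · omega
    · rcases h3 with h3 | h3
      · left; omega
      · right; omega
    · intro i hi
      have e1 : y (n + i) = Y (w + (n + i)) := by
        apply hw
        rw [abs_le]
        omega
      rw [e1]
      by_cases c1 : w + n + i < u + h K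
      · have e2 := h6 (w + n + i - u) (by omega) (by omega)
        have e3 : b K (i - (u - (w + n)) - h K - (v - u - h K)) = 0 := by
          apply hsupp
          left
          rcases h3 with h3 | h3 <;> omega
        rw [e3]
        have e4 : u + (w + n + i - u) = w + (n + i) := by ring
        rw [e4] at e2
        rw [e2]
        have e5 : w + n + i - u = i - (u - (w + n)) := by ring
        rw [e5]
        ring
      · have e3 : b K (i - (u - (w + n))) = 0 := by
          apply hsupp
          right
          omega
        rw [e3]
        by_cases c2 : w + n + i < v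
        · have e4 : w + (n + i) = u + h K := by
            rcases h3 with h3 | h3 <;> omega
          have e5 : b K (i - (u - (w + n)) - h K - (v - u - h K)) = 0 := by
            apply hsupp
            left
            omega
          rw [e5, e4]
          rcases h3 with h3 | h3
          · omega
          · rw [h3.2]; ring
        · have e2 := h7 (w + n + i - v) (by omega) (by omega)
          have e4 : v + (w + n + i - v) = w + (n + i) := by ring
          rw [e4] at e2
          rw [e2]
          have e5 : w + n + i - v = i - (u - (w + n)) - h K - (v - u - h K) := by ring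
          rw [e5]
          ring

end W347.UR
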